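import Pool.Agent.Helper10.QRH.StC

/-! Project QRH, module C2 (MP_768c9c_nt): sparse sums over candidate primes and over integers in
bad cells. -/

set_option autoImplicit false
open Filter Topology
open scoped Classical

namespace Pool.Agent.Helper18.QRH

open Pool.Agent.Helper10.QRH

/-- tails of geometric series with real exponents -/
theorem geom_tail {c : ℝ} (hc : 0 < c) (k0 : ℕ) (K : Finset ℕ) (hK : ∀ k ∈ K, k0 ≤ k) :
    ∑ k ∈ K, (2 : ℝ) ^ (-(c * k)) ≤ (2 : ℝ) ^ (-(c * k0)) / (1 - (2 : ℝ) ^ (-c)) := by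
  set r : ℝ := (2 : ℝ) ^ (-c) with hr
  have hr0 : 0 < r := Real.rpow_pos_of_pos two_pos _
  have hr1 : r < 1 := Real.rpow_lt_one_of_one_lt_of_neg (by norm_num) (by linarith)
  have hpow : ∀ k : ℕ, (2 : ℝ) ^ (-(c * k)) = r ^ k := by
    intro k
    rw [hr, ← Real.rpow_natCast, ← Real.rpow_mul (by norm_num)]
    congr 1; ring
  simp only [hpow]
  obtain ⟨N, hN⟩ := K.bddAbove
  have hsub : K ⊆ Finset.Ico k0 (N + 1) := by
    intro k hk
    rw [Finset.mem_Ico]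
    exact ⟨hK k hk, Nat.lt_succ_of_le (hN hk)⟩
  calc ∑ k ∈ K, r ^ k ≤ ∑ k ∈ Finset.Ico k0 (N + 1), r ^ k :=
        Finset.sum_le_sum_of_subset_of_nonneg hsub (fun _ _ _ => by positivity)
    _ ≤ r ^ k0 / (1 - r) := geom_sum_Ico_le_of_lt_one hr0.le hr1

/-- `2 ^ (-(c k0))` is eventually smaller than any positive constant -/
theorem eventually_small {c δ : ℝ} (hc : 0 < c) (hδ : 0 < δ) :
    ∃ K0 : ℕ, ∀ k0 : ℕ, K0 ≤ k0 → (2 : ℝ) ^ (-(c * k0)) ≤ δ := by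
  have hr0 : 0 ≤ (2 : ℝ) ^ (-c) := (Real.rpow_pos_of_pos two_pos _).le
  have hr1 : (2 : ℝ) ^ (-c) < 1 := Real.rpow_lt_one_of_one_lt_of_neg (by norm_num) (by linarith)
  have ht := tendsto_pow_atTop_nhds_zero_of_lt_one hr0 hr1
  obtain ⟨K0, hK0⟩ := (ht.eventually (gt_mem_nhds hδ)).exists_forall_of_atTop
  refine ⟨K0, fun k0 hk0 => ?_⟩
  have := (hK0 k0 hk0).le
  rwa [← Real.rpow_natCast, ← Real.rpow_mul (by norm_num), neg_mul] at this

theorem candSum (P : Par) (h0 : PhiFacts P) (h : CdFacts P) : CandSum P := by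
  obtain ⟨hν0, hν1, hκ, hη, hφ, hd, hs, hg0, hg1, hg2⟩ := h0.small
  obtain ⟨K1, hK1⟩ := h.card
  have hκ0 := P.κ0
  have hκ1 := P.κ1
  have hc : (0:ℝ) < 0.68 * P.κ := by linarith
  have hr1 : (2 : ℝ) ^ (-(0.68 * P.κ)) < 1 :=
    Real.rpow_lt_one_of_one_lt_of_neg (by norm_num) (by linarith)
  obtain ⟨K2, hK2⟩ := eventually_small (c := 0.18 * P.κ) (δ := 1 - (2 : ℝ) ^ (-(0.68 * P.κ)))
    (by linarith) (by linarith)
  refine ⟨max K1 K2, fun k0 hk0 hfew T hT => ?_⟩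
  have hk1 : K1 ≤ k0 := le_trans (le_max_left _ _) hk0
  have hk2 : K2 ≤ k0 := le_trans (le_max_right _ _) hk0
  -- choice of the block and of the cofactor
  have hch : ∀ q : ℕ, ∃ k m : ℕ, q ∈ T → k0 ≤ k ∧ (q, m) ∈ P.Cd k := by
    intro q
    by_cases hq : q ∈ T
    · obtain ⟨k, hk, m, hm⟩ := hT q hq
      exact ⟨k, m, fun _ => ⟨hk, hm⟩⟩
    · exact ⟨0, 0, fun h => absurd h hq⟩
  choose kf mf hkm using hch
  set a : ℝ := -1 + P.κ / 2 + 4 * P.g with ha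
  have ha0 : a < 0 := by rw [ha]; linarith
  have hexp : (1/2 - P.d + P.ν) + (1/2 + P.κ) * a ≤ -(0.68 * P.κ) := by
    have h1 : (1/2 + P.κ) * a = -(1/2 + P.κ) + (1/2 + P.κ) * (P.κ / 2 + 4 * P.g) := by
      rw [ha]; ring
    have h2 : (1/2 + P.κ) * (P.κ / 2 + 4 * P.g) ≤ (5/8) * (P.κ / 2 + 4 * P.g) := by
      apply mul_le_mul_of_nonneg_right (by linarith) (by linarith)
    rw [h1, hd]
    linarith
  have hblock : ∀ k ∈ T.image kf, ∑ q ∈ T.filter (fun q => kf q = k), (q : ℝ) ^ a ≤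
      (2 : ℝ) ^ (-(0.68 * P.κ * k)) := by
    intro k hk
    obtain ⟨q0, hq0, hq0k⟩ := Finset.mem_image.1 hk
    have hkk : k0 ≤ k := by rw [← hq0k]; exact (hkm q0 hq0).1
    have hk' : (0:ℝ) ≤ k := Nat.cast_nonneg k
    set U := (T.filter (fun q => kf q = k)).image (fun q => (q, mf q)) with hU
    have hUcard : U.card = (T.filter (fun q => kf q = k)).card := by
      apply Finset.card_image_of_injective
      intro x y hxy
      exact (Prod.mk.inj hxy).1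
    have hUmem : ∀ x ∈ U, x ∈ P.Cd k := by
      intro x hx
      obtain ⟨q, hq, rfl⟩ := Finset.mem_image.1 hx
      obtain ⟨hqT, hqk⟩ := Finset.mem_filter.1 hq
      have := (hkm q hqT).2
      rwa [hqk] at this
    have hcard := hK1 k0 hk1 hfew k hkk U hUmem
    rw [hUcard] at hcard
    calc ∑ q ∈ T.filter (fun q => kf q = k), (q : ℝ) ^ a
        ≤ ∑ q ∈ T.filter (fun q => kf q = k), (2 : ℝ) ^ ((1/2 + P.κ) * k * a) := by
          apply Finset.sum_le_sum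
          intro q hq
          obtain ⟨hqT, hqk⟩ := Finset.mem_filter.1 hq
          have hmem := (hkm q hqT).2
          rw [hqk] at hmem
          have hge : (2 : ℝ) ^ ((1/2 + P.κ) * k) ≤ q := hmem.2.2.2.2.1
          rw [Real.rpow_mul (by norm_num)]
          exact Real.rpow_le_rpow_of_nonpos (Real.rpow_pos_of_pos two_pos _) hge ha0.le
      _ = ((T.filter (fun q => kf q = k)).card : ℝ) * (2 : ℝ) ^ ((1/2 + P.κ) * k * a) := by
          rw [Finset.sum_const, nsmul_eq_mul]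
      _ ≤ (2 : ℝ) ^ ((1/2 - P.d + P.ν) * k) * (2 : ℝ) ^ ((1/2 + P.κ) * k * a) := by
          apply mul_le_mul_of_nonneg_right hcard (Real.rpow_nonneg (by norm_num) _)
      _ = (2 : ℝ) ^ (((1/2 - P.d + P.ν) + (1/2 + P.κ) * a) * k) := by
          rw [← Real.rpow_add two_pos]; congr 1; ring
      _ ≤ (2 : ℝ) ^ (-(0.68 * P.κ * k)) := by
          apply Real.rpow_le_rpow_of_exponent_le (by norm_num)
          have := mul_le_mul_of_nonneg_right hexp hk'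
          linarith
  have hfib : ∑ q ∈ T, (q : ℝ) ^ a =
      ∑ k ∈ T.image kf, ∑ q ∈ T.filter (fun q => kf q = k), (q : ℝ) ^ a :=
    (Finset.sum_fiberwise_of_maps_to (fun q hq => Finset.mem_image_of_mem kf hq) _).symm
  rw [hfib]
  have hge : ∀ k ∈ T.image kf, k0 ≤ k := by
    intro k hk
    obtain ⟨q0, hq0, hq0k⟩ := Finset.mem_image.1 hk
    rw [← hq0k]; exact (hkm q0 hq0).1
  calc ∑ k ∈ T.image kf, ∑ q ∈ T.filter (fun q => kf q = k), (q : ℝ) ^ a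
      ≤ ∑ k ∈ T.image kf, (2 : ℝ) ^ (-(0.68 * P.κ * k)) := Finset.sum_le_sum hblock
    _ ≤ (2 : ℝ) ^ (-(0.68 * P.κ * k0)) / (1 - (2 : ℝ) ^ (-(0.68 * P.κ))) :=
        geom_tail hc k0 _ hge
    _ ≤ (2 : ℝ) ^ (-(P.κ / 2 * k0)) := by
        rw [div_le_iff₀ (by linarith)]
        have h1 : (2 : ℝ) ^ (-(0.68 * P.κ * k0)) =
            (2 : ℝ) ^ (-(P.κ / 2 * k0)) * (2 : ℝ) ^ (-(0.18 * P.κ * k0)) := by
          rw [← Real.rpow_add two_pos]; congr 1; ring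
        rw [h1]
        exact mul_le_mul_of_nonneg_left (hK2 k0 hk2) (Real.rpow_nonneg (by norm_num) _)

theorem badSum (P : Par) (h0 : PhiFacts P) (h : CellFacts P) : BadSum P := by
  obtain ⟨hν0, hν1, hκ, hη, hφ, hd, hs, hg0, hg1, hg2⟩ := h0.small
  have hr1 : (2 : ℝ) ^ (-(0.099 : ℝ)) < 1 :=
    Real.rpow_lt_one_of_one_lt_of_neg (by norm_num) (by norm_num)
  obtain ⟨K2, hK2⟩ := eventually_small (c := 0.099)
    (δ := (2 : ℝ) ^ (-0.4 : ℝ) * (1 - (2 : ℝ) ^ (-(0.099 : ℝ))))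
    (by norm_num) (mul_pos (Real.rpow_pos_of_pos two_pos _) (by linarith))
  refine ⟨K2, fun k0 hk0 hfew Z hZ T hT => ?_⟩
  have hZ0 : 0 < Z := by linarith
  have hne : ∀ n ∈ T, n ≠ 0 := by
    intro n hn h0
    have := (hT n hn).1
    rw [h0] at this
    have h2 : 0 < 2 ^ k0 := by positivity
    omega
  have hge : ∀ k ∈ T.image (Nat.log 2), k0 ≤ k := by
    intro k hk
    obtain ⟨n, hn, rfl⟩ := Finset.mem_image.1 hk
    exact (Nat.le_log_iff_pow_le (by norm_num) (hne n hn)).2 (hT n hn).1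
  have hblock : ∀ k ∈ T.image (Nat.log 2),
      ∑ n ∈ T.filter (fun n => Nat.log 2 n = k), (1 : ℝ) / n ≤
      Z ^ (-0.4 : ℝ) * (2 : ℝ) ^ (0.4 : ℝ) * (2 : ℝ) ^ (-(0.099 * (k : ℝ))) := by
    intro k hk
    have hkk := hge k hk
    have hk' : (0:ℝ) ≤ k := Nat.cast_nonneg k
    obtain ⟨n0, hn0, hn0k⟩ := Finset.mem_image.1 hk
    -- `Z < 2 ^ (k+1)`
    have hZk : Z ≤ (2 : ℝ) ^ ((k : ℝ) + 1) := by
      have h1 : Z ≤ n0 := (hT n0 hn0).2.2
      have h2 : n0 < 2 ^ (k + 1) := by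
        rw [← hn0k]; exact Nat.lt_pow_succ_log_self (by norm_num) n0
      have h3 : (n0 : ℝ) ≤ (2 : ℝ) ^ (k + 1) := by exact_mod_cast h2.le
      have h4 : (2 : ℝ) ^ (k + 1) = (2 : ℝ) ^ ((k : ℝ) + 1) := by
        rw [← Real.rpow_natCast]; push_cast; rfl
      linarith [h1, h3, h4.le]
    set J := (Finset.range (2 ^ (k - P.e k))).filter (fun j => P.bad k j) with hJ
    have hsub : T.filter (fun n => Nat.log 2 n = k) ⊆ J.biUnion (fun j => P.cell k j) := by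
      intro n hn
      obtain ⟨hnT, hnk⟩ := Finset.mem_filter.1 hn
      have hn0' := hne n hnT
      have hlt := h.idx_lt hn0'
      rw [hnk] at hlt
      rw [Finset.mem_biUnion]
      refine ⟨P.idx n, ?_, ?_⟩
      · rw [hJ, Finset.mem_filter, Finset.mem_range]
        refine ⟨hlt, ?_⟩
        have := (hT n hnT).2.1
        rw [Par.badN, hnk] at this
        exact this
      · exact (h.mem_cell hlt).2 ⟨hn0', hnk, rfl⟩
    have hcard : ((T.filter (fun n => Nat.log 2 n = k)).card : ℝ) ≤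
        (2 : ℝ) ^ (P.ν * k) * (2 : ℝ) ^ (P.e k : ℕ) := by
      have h1 : (T.filter (fun n => Nat.log 2 n = k)).card ≤ J.card * 2 ^ P.e k := by
        calc (T.filter (fun n => Nat.log 2 n = k)).card
            ≤ (J.biUnion (fun j => P.cell k j)).card := Finset.card_le_card hsub
          _ ≤ ∑ j ∈ J, (P.cell k j).card := Finset.card_biUnion_le
          _ = ∑ j ∈ J, 2 ^ P.e k := Finset.sum_congr rfl (fun j _ => h.card_cell k j)
          _ = J.card * 2 ^ P.e k := by rw [Finset.sum_const, smul_eq_mul]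
      have h2 : ((T.filter (fun n => Nat.log 2 n = k)).card : ℝ) ≤ (J.card : ℝ) * 2 ^ P.e k := by
        exact_mod_cast h1
      exact h2.trans (mul_le_mul_of_nonneg_right (hfew k hkk) (by positivity))
    have he : (2 : ℝ) ^ (P.e k : ℕ) ≤ (2 : ℝ) ^ ((k : ℝ) / 2) := by
      rw [← Real.rpow_natCast]
      apply Real.rpow_le_rpow_of_exponent_le (by norm_num)
      have h1 : (0:ℝ) ≤ (k : ℝ) * (1/2 - P.d) := by
        apply mul_nonneg hk'
        rw [hd]; linarith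
      have h2 : ((P.e k : ℕ) : ℝ) ≤ (k : ℝ) * (1/2 - P.d) := Nat.floor_le h1
      have h3 : (k : ℝ) * (1/2 - P.d) ≤ (k : ℝ) / 2 := by
        have : 0 ≤ (k:ℝ) * P.d := by
          apply mul_nonneg hk'
          rw [hd]; linarith
        linarith
      linarith
    have hterm : ∀ n ∈ T.filter (fun n => Nat.log 2 n = k), (1 : ℝ) / n ≤ (2 : ℝ) ^ (-(k : ℝ)) := by
      intro n hn
      obtain ⟨hnT, hnk⟩ := Finset.mem_filter.1 hn
      have h1 : 2 ^ k ≤ n := by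
        rw [← hnk]; exact Nat.pow_log_le_self 2 (hne n hnT)
      have h2 : (2 : ℝ) ^ k ≤ n := by exact_mod_cast h1
      rw [Real.rpow_neg (by norm_num), Real.rpow_natCast, one_div]
      exact inv_anti₀ (by positivity) h2
    calc ∑ n ∈ T.filter (fun n => Nat.log 2 n = k), (1 : ℝ) / n
        ≤ ∑ n ∈ T.filter (fun n => Nat.log 2 n = k), (2 : ℝ) ^ (-(k : ℝ)) :=
          Finset.sum_le_sum hterm
      _ = ((T.filter (fun n => Nat.log 2 n = k)).card : ℝ) * (2 : ℝ) ^ (-(k : ℝ)) := by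
          rw [Finset.sum_const, nsmul_eq_mul]
      _ ≤ ((2 : ℝ) ^ (P.ν * k) * (2 : ℝ) ^ ((k : ℝ) / 2)) * (2 : ℝ) ^ (-(k : ℝ)) := by
          apply mul_le_mul_of_nonneg_right _ (Real.rpow_nonneg (by norm_num) _)
          exact hcard.trans (mul_le_mul_of_nonneg_left he (Real.rpow_nonneg (by norm_num) _))
      _ = (2 : ℝ) ^ (P.ν * k + (k : ℝ) / 2 + -(k : ℝ)) := by
          rw [Real.rpow_add two_pos, Real.rpow_add two_pos]
      _ ≤ (2 : ℝ) ^ (-(0.4 * (k : ℝ)) + -(0.099 * (k : ℝ))) := by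
          apply Real.rpow_le_rpow_of_exponent_le (by norm_num)
          have h1 : P.ν * k ≤ 1/1600 * k := mul_le_mul_of_nonneg_right hν1 hk'
          linarith
      _ = (2 : ℝ) ^ (-(0.4 * (k : ℝ))) * (2 : ℝ) ^ (-(0.099 * (k : ℝ))) :=
          Real.rpow_add two_pos _ _
      _ ≤ Z ^ (-0.4 : ℝ) * (2 : ℝ) ^ (0.4 : ℝ) * (2 : ℝ) ^ (-(0.099 * (k : ℝ))) := by
          apply mul_le_mul_of_nonneg_right _ (Real.rpow_nonneg (by norm_num) _)
          have h1 : ((2 : ℝ) ^ ((k : ℝ) + 1)) ^ (-0.4 : ℝ) ≤ Z ^ (-0.4 : ℝ) :=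
            Real.rpow_le_rpow_of_nonpos hZ0 hZk (by norm_num)
          calc (2 : ℝ) ^ (-(0.4 * (k : ℝ)))
              = ((2 : ℝ) ^ ((k : ℝ) + 1)) ^ (-0.4 : ℝ) * (2 : ℝ) ^ (0.4 : ℝ) := by
                rw [← Real.rpow_mul (by norm_num), ← Real.rpow_add two_pos]
                congr 1; ring
            _ ≤ Z ^ (-0.4 : ℝ) * (2 : ℝ) ^ (0.4 : ℝ) :=
                mul_le_mul_of_nonneg_right h1 (Real.rpow_nonneg (by norm_num) _)
  have hfib : ∑ n ∈ T, (1 : ℝ) / n =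
      ∑ k ∈ T.image (Nat.log 2), ∑ n ∈ T.filter (fun n => Nat.log 2 n = k), (1 : ℝ) / n :=
    (Finset.sum_fiberwise_of_maps_to (fun n hn => Finset.mem_image_of_mem (Nat.log 2) hn) _).symm
  rw [hfib]
  have hZp : 0 < Z ^ (-0.4 : ℝ) := Real.rpow_pos_of_pos hZ0 _
  calc ∑ k ∈ T.image (Nat.log 2), ∑ n ∈ T.filter (fun n => Nat.log 2 n = k), (1 : ℝ) / n
      ≤ ∑ k ∈ T.image (Nat.log 2),
          Z ^ (-0.4 : ℝ) * (2 : ℝ) ^ (0.4 : ℝ) * (2 : ℝ) ^ (-(0.099 * (k : ℝ))) :=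
        Finset.sum_le_sum hblock
    _ = Z ^ (-0.4 : ℝ) * (2 : ℝ) ^ (0.4 : ℝ) *
          ∑ k ∈ T.image (Nat.log 2), (2 : ℝ) ^ (-(0.099 * (k : ℝ))) := by
        rw [Finset.mul_sum]
    _ ≤ Z ^ (-0.4 : ℝ) * (2 : ℝ) ^ (0.4 : ℝ) *
          ((2 : ℝ) ^ (-(0.099 * (k0 : ℝ))) / (1 - (2 : ℝ) ^ (-(0.099 : ℝ)))) := by
        apply mul_le_mul_of_nonneg_left (geom_tail (by norm_num) k0 _ hge)
        positivity
    _ ≤ Z ^ (-0.4 : ℝ) * (2 : ℝ) ^ (0.4 : ℝ) * (2 : ℝ) ^ (-0.4 : ℝ) := by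
        apply mul_le_mul_of_nonneg_left _ (by positivity)
        rw [div_le_iff₀ (by linarith)]
        exact hK2 k0 hk0
    _ = Z ^ (-0.4 : ℝ) := by
        rw [mul_assoc, ← Real.rpow_add two_pos]; norm_num

end Pool.Agent.Helper18.QRH
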